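import Pool.Agent.Q61.DP.Stm

/-!
# Project DP, job DP-53: S_C4

In the metric of a one-dimensional solution any two points have distance at most `π`.
-/

namespace Pool.Agent.Q265.DP

open MeasureTheory Topology Filter Set Pool.Agent.Q61.DP

/-- the length along a segment of the path -/
theorem piece (u : ℂ → ℝ) (hu : Continuous u) (γ : ℝ → ℂ) (a b : ℝ) (hab : a ≤ b) (p v : ℂ)
    (hγ : ∀ t ∈ Icc a b, γ t = p + ((t - a : ℝ) : ℂ) * v) :
    IntervalIntegrable (fun t => Real.exp (u (γ t)) * ‖deriv γ t‖) volume a b ∧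
    ∫ t in a..b, Real.exp (u (γ t)) * ‖deriv γ t‖ =
      ∫ t in a..b, Real.exp (u (p + ((t - a : ℝ) : ℂ) * v)) * ‖v‖ := by
  have key : EqOn (fun t => Real.exp (u (p + ((t - a : ℝ) : ℂ) * v)) * ‖v‖)
      (fun t => Real.exp (u (γ t)) * ‖deriv γ t‖) (Ioo a b) := by
    intro t ht
    have h1 : γ =ᶠ[𝓝 t] fun t => p + ((t - a : ℝ) : ℂ) * v := by
      filter_upwards [Icc_mem_nhds ht.1 ht.2] with s hs using hγ s hs
    have h2 : HasDerivAt (fun t : ℝ => p + ((t - a : ℝ) : ℂ) * v) v t := by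
      have h3 : HasDerivAt (fun t : ℝ => ((t - a : ℝ) : ℂ)) ((1 : ℝ) : ℂ) t :=
        ((hasDerivAt_id t).sub_const a).ofReal_comp
      have h4 := (h3.mul_const v).const_add p
      simpa using h4
    have h3 : deriv γ t = v := by rw [h1.deriv_eq]; exact h2.deriv
    show Real.exp (u (p + ((t - a : ℝ) : ℂ) * v)) * ‖v‖ = Real.exp (u (γ t)) * ‖deriv γ t‖
    rw [h3, hγ t ⟨ht.1.le, ht.2.le⟩]
  have hc : Continuous fun t : ℝ => Real.exp (u (p + ((t - a : ℝ) : ℂ) * v)) * ‖v‖ := by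
    fun_prop
  constructor
  · exact (hc.intervalIntegrable a b).congr_uIoo (by rw [uIoo_of_le hab]; exact key)
  · exact (intervalIntegral.integral_congr_Ioo_of_le hab key).symm

/-- the density along the first coordinate -/
noncomputable def w (c t₀ s : ℝ) : ℝ := c / Real.cosh (c * (s - t₀))

/-- its primitive -/
noncomputable def F (c t₀ s : ℝ) : ℝ := 2 * Real.arctan (Real.exp (c * (s - t₀)))

theorem hasDerivAt_F (c t₀ s : ℝ) : HasDerivAt (F c t₀) (w c t₀ s) s := by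
  have h1 : HasDerivAt (fun s => c * (s - t₀)) c s := by
    simpa using ((hasDerivAt_id s).sub_const t₀).const_mul c
  have h2 := ((h1.exp).arctan).const_mul (2:ℝ)
  unfold F
  refine h2.congr_deriv ?_
  unfold w
  rw [Real.cosh_eq, Real.exp_neg]
  have := Real.exp_pos (c * (s - t₀))
  field_simp
  ring

theorem F_lt (c t₀ s : ℝ) : F c t₀ s < Real.pi := by
  have := Real.arctan_lt_pi_div_two (Real.exp (c * (s - t₀)))
  unfold F; linarith

theorem continuous_w (c t₀ : ℝ) : Continuous (w c t₀) := by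
  unfold w
  exact continuous_const.div (by fun_prop) fun s => (Real.cosh_pos _).ne'

theorem w_pos (c t₀ s : ℝ) (hc : 0 < c) : 0 < w c t₀ s := div_pos hc (Real.cosh_pos _)

theorem F_neg (c t₀ s : ℝ) : F c (-t₀) (-s) = Real.pi - F c t₀ s := by
  unfold F
  have h1 : c * (-s - -t₀) = -(c * (s - t₀)) := by ring
  rw [h1, Real.exp_neg, Real.arctan_inv_of_pos (Real.exp_pos _)]
  ring

theorem w_tendsto (c t₀ : ℝ) (hc : 0 < c) : Tendsto (w c t₀) atTop (𝓝 0) := by
  unfold w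
  apply Tendsto.div_atTop tendsto_const_nhds
  have h1 : Tendsto (fun s : ℝ => Real.exp (c * (s - t₀)) / 2) atTop atTop := by
    apply Tendsto.atTop_div_const two_pos
    apply Real.tendsto_exp_atTop.comp
    apply Tendsto.const_mul_atTop hc
    exact tendsto_atTop_add_const_right _ _ tendsto_id
  refine tendsto_atTop_mono (fun s => ?_) h1
  rw [Real.cosh_eq]
  have := Real.exp_pos (-(c * (s - t₀)))
  linarith

/-- the solution -/
noncomputable def U (e : ℂ) (c t₀ : ℝ) (x : ℂ) : ℝ :=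
  Real.log (c / Real.cosh (c * (inner ℝ x e - t₀)))

theorem exp_U (e : ℂ) (c t₀ : ℝ) (hc : 0 < c) (x : ℂ) :
    Real.exp (U e c t₀ x) = w c t₀ (inner ℝ x e) :=
  Real.exp_log (div_pos hc (Real.cosh_pos _))

theorem continuous_U (e : ℂ) (c t₀ : ℝ) (hc : 0 < c) : Continuous (U e c t₀) := by
  unfold U
  apply Continuous.log
  · exact continuous_const.div (by fun_prop) fun s => (Real.cosh_pos _).ne'
  · intro x; exact (div_pos hc (Real.cosh_pos _)).ne'

/-- the path: from `x` to `p`, to `q`, to `y` -/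
noncomputable def path (x p q y : ℂ) (t : ℝ) : ℂ :=
  x + ((min (3 * t) 1 : ℝ) : ℂ) * (p - x) + ((min (max (3 * t - 1) 0) 1 : ℝ) : ℂ) * (q - p) +
    ((max (3 * t - 2) 0 : ℝ) : ℂ) * (y - q)

theorem path_one (x p q y : ℂ) (t : ℝ) (ht : t ∈ Icc (0:ℝ) (1 / 3)) :
    path x p q y t = x + ((t - 0 : ℝ) : ℂ) * (3 * (p - x)) := by
  obtain ⟨h0, h1⟩ := ht
  unfold path
  rw [min_eq_left (by linarith), max_eq_right (by linarith : 3 * t - 1 ≤ 0), min_eq_left zero_le_one,
    max_eq_right (by linarith : 3 * t - 2 ≤ 0)]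
  push_cast; ring

theorem path_two (x p q y : ℂ) (t : ℝ) (ht : t ∈ Icc (1 / 3 : ℝ) (2 / 3)) :
    path x p q y t = p + ((t - 1 / 3 : ℝ) : ℂ) * (3 * (q - p)) := by
  obtain ⟨h0, h1⟩ := ht
  unfold path
  rw [min_eq_right (by linarith), max_eq_left (by linarith : 0 ≤ 3 * t - 1),
    min_eq_left (by linarith : 3 * t - 1 ≤ 1),
    max_eq_right (by linarith : 3 * t - 2 ≤ 0)]
  push_cast; ring

theorem path_three (x p q y : ℂ) (t : ℝ) (ht : t ∈ Icc (2 / 3 : ℝ) 1) :
    path x p q y t = q + ((t - 2 / 3 : ℝ) : ℂ) * (3 * (y - q)) := by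
  obtain ⟨h0, h1⟩ := ht
  unfold path
  rw [min_eq_right (by linarith), max_eq_left (by linarith : 0 ≤ 3 * t - 1),
    min_eq_right (by linarith : 1 ≤ 3 * t - 1),
    max_eq_left (by linarith : 0 ≤ 3 * t - 2)]
  push_cast; ring

theorem path_c1 (x p q y : ℂ) : PiecewiseC1 (path x p q y) := by
  refine ⟨?_, 3, fun i => min ((i : ℝ) / 3) 1, ?_, ?_, ?_, ?_⟩
  · apply Continuous.continuousOn
    unfold path
    fun_prop
  · intro i j hij
    apply min_le_min_right
    have : (i : ℝ) ≤ j := by exact_mod_cast hij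
    linarith
  · norm_num
  · norm_num
  · intro i hi _
    have key : ∀ (a b : ℝ) (p' v : ℂ),
        (∀ t ∈ Icc a b, path x p q y t = p' + ((t - a : ℝ) : ℂ) * v) →
        ContDiffOn ℝ 1 (path x p q y) (Icc a b) := by
      intro a b p' v h
      have h1 : ContDiff ℝ 1 fun t : ℝ => p' + ((t - a : ℝ) : ℂ) * v := by
        have h2 : ContDiff ℝ 1 fun t : ℝ => ((t - a : ℝ) : ℂ) :=
          Complex.ofRealCLM.contDiff.comp (contDiff_id.sub contDiff_const)
        exact contDiff_const.add (h2.mul contDiff_const)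
      exact h1.contDiffOn.congr h
    interval_cases i
    · have h1 : min (((0:ℕ):ℝ) / 3) 1 = 0 := by norm_num
      have h2 : min (((0 + 1 : ℕ):ℝ) / 3) 1 = 1 / 3 := by norm_num
      simp only [h1, h2]
      exact key 0 (1 / 3) _ _ (path_one x p q y)
    · have h1 : min (((1:ℕ):ℝ) / 3) 1 = 1 / 3 := by norm_num
      have h2 : min (((1 + 1 : ℕ):ℝ) / 3) 1 = 2 / 3 := by norm_num
      simp only [h1, h2]
      exact key (1 / 3) (2 / 3) _ _ (path_two x p q y)
    · have h1 : min (((2:ℕ):ℝ) / 3) 1 = 2 / 3 := by norm_num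
      have h2 : min (((2 + 1 : ℕ):ℝ) / 3) 1 = 1 := by norm_num
      simp only [h1, h2]
      exact key (2 / 3) 1 _ _ (path_three x p q y)

/-- the length of the path -/
theorem path_length (e : ℂ) (he : ‖e‖ = 1) (c t₀ : ℝ) (hc : 0 < c) (x y : ℂ) (S : ℝ)
    (hx : inner ℝ x e ≤ S) (hy : inner ℝ y e ≤ S) :
    glength (U e c t₀) (path x (x + ((S - inner ℝ x e : ℝ) : ℂ) * e)
      (y + ((S - inner ℝ y e : ℝ) : ℂ) * e) y) =
    (F c t₀ S - F c t₀ (inner ℝ x e)) +
      w c t₀ S * ‖(y - x) + ((inner ℝ x e - inner ℝ y e : ℝ) : ℂ) * e‖ +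
      (F c t₀ S - F c t₀ (inner ℝ y e)) := by
  set s₁ : ℝ := inner ℝ x e with hs₁
  set s₂ : ℝ := inner ℝ y e with hs₂
  set p : ℂ := x + ((S - s₁ : ℝ) : ℂ) * e with hp
  set q : ℂ := y + ((S - s₂ : ℝ) : ℂ) * e with hq
  have hee : inner ℝ e e = (1:ℝ) := by rw [real_inner_self_eq_norm_sq, he]; norm_num
  have hin : ∀ (z : ℂ) (r : ℝ), inner ℝ (z + (r : ℂ) * e) e = inner ℝ z e + r := by
    intro z r
    rw [← Complex.real_smul, inner_add_left, real_inner_smul_left, hee, mul_one]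
  have hpe : inner ℝ p e = S := by rw [hp, hin, ← hs₁]; ring
  have hqe : inner ℝ q e = S := by rw [hq, hin, ← hs₂]; ring
  have hcU := continuous_U e c t₀ hc
  obtain ⟨i1, e1⟩ := piece _ hcU (path x p q y) 0 (1 / 3) (by norm_num) _ _ (path_one x p q y)
  obtain ⟨i2, e2⟩ := piece _ hcU (path x p q y) (1 / 3) (2 / 3) (by norm_num) _ _
    (path_two x p q y)
  obtain ⟨i3, e3⟩ := piece _ hcU (path x p q y) (2 / 3) 1 (by norm_num) _ _ (path_three x p q y)
  unfold glength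
  rw [← intervalIntegral.integral_add_adjacent_intervals (i1.trans i2) i3,
    ← intervalIntegral.integral_add_adjacent_intervals i1 i2, e1, e2, e3]
  have hcw := continuous_w c t₀
  -- first piece
  have a1 : ∫ t in (0:ℝ)..(1 / 3), Real.exp (U e c t₀ (x + ((t - 0 : ℝ) : ℂ) * (3 * (p - x)))) *
      ‖3 * (p - x)‖ = F c t₀ S - F c t₀ s₁ := by
    have h1 : ∀ t : ℝ, Real.exp (U e c t₀ (x + ((t - 0 : ℝ) : ℂ) * (3 * (p - x)))) *
        ‖3 * (p - x)‖ = w c t₀ (s₁ + t * (3 * (S - s₁))) * (3 * (S - s₁)) := by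
      intro t
      have h2 : x + ((t - 0 : ℝ) : ℂ) * (3 * (p - x)) = x + ((t * (3 * (S - s₁)) : ℝ) : ℂ) * e := by
        rw [hp]; push_cast; ring
      have h3 : ‖3 * (p - x)‖ = 3 * (S - s₁) := by
        have h4 : 3 * (p - x) = ((3 * (S - s₁) : ℝ) : ℂ) * e := by rw [hp]; push_cast; ring
        rw [h4, norm_mul, he, Complex.norm_real, Real.norm_eq_abs, abs_of_nonneg (by linarith),
          mul_one]
      rw [exp_U e c t₀ hc, h2, hin, h3]
    simp_rw [h1]
    have hd : ∀ t ∈ uIcc (0:ℝ) (1 / 3), HasDerivAt (fun t => F c t₀ (s₁ + t * (3 * (S - s₁))))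
        (w c t₀ (s₁ + t * (3 * (S - s₁))) * (3 * (S - s₁))) t := by
      intro t _
      have h5 : HasDerivAt (fun t : ℝ => s₁ + t * (3 * (S - s₁))) (3 * (S - s₁)) t := by
        simpa using ((hasDerivAt_id t).mul_const (3 * (S - s₁))).const_add s₁
      exact (hasDerivAt_F c t₀ _).comp t h5
    rw [intervalIntegral.integral_eq_sub_of_hasDerivAt hd
      (Continuous.intervalIntegrable (by fun_prop) _ _)]
    have h6 : s₁ + 1 / 3 * (3 * (S - s₁)) = S := by ring
    have h7 : s₁ + 0 * (3 * (S - s₁)) = s₁ := by ring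
    rw [h6, h7]
  have a2 : ∫ t in (1 / 3:ℝ)..(2 / 3), Real.exp (U e c t₀ (p + ((t - 1 / 3 : ℝ) : ℂ) *
      (3 * (q - p)))) * ‖3 * (q - p)‖ = w c t₀ S * ‖(y - x) + ((s₁ - s₂ : ℝ) : ℂ) * e‖ := by
    have h1 : ∀ t : ℝ, Real.exp (U e c t₀ (p + ((t - 1 / 3 : ℝ) : ℂ) * (3 * (q - p)))) *
        ‖3 * (q - p)‖ = w c t₀ S * (3 * ‖(y - x) + ((s₁ - s₂ : ℝ) : ℂ) * e‖) := by
      intro t
      have h2 : inner ℝ (p + ((t - 1 / 3 : ℝ) : ℂ) * (3 * (q - p))) e = S := by
        have h3 : p + ((t - 1 / 3 : ℝ) : ℂ) * (3 * (q - p)) =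
            p + ((t - 1 / 3) * 3 : ℝ) • (q - p) := by
          rw [Complex.real_smul]; push_cast; ring
        rw [h3, inner_add_left, real_inner_smul_left, inner_sub_left, hpe, hqe]
        ring
      have h3 : q - p = (y - x) + ((s₁ - s₂ : ℝ) : ℂ) * e := by
        rw [hp, hq]; push_cast; ring
      rw [exp_U e c t₀ hc, h2, norm_mul, h3]
      norm_num
    simp_rw [h1]
    rw [intervalIntegral.integral_const, smul_eq_mul]
    ring
  have a3 : ∫ t in (2 / 3:ℝ)..1, Real.exp (U e c t₀ (q + ((t - 2 / 3 : ℝ) : ℂ) *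
      (3 * (y - q)))) * ‖3 * (y - q)‖ = F c t₀ S - F c t₀ s₂ := by
    have h1 : ∀ t : ℝ, Real.exp (U e c t₀ (q + ((t - 2 / 3 : ℝ) : ℂ) * (3 * (y - q)))) *
        ‖3 * (y - q)‖ = w c t₀ (S - (t - 2 / 3) * (3 * (S - s₂))) * (3 * (S - s₂)) := by
      intro t
      have h2 : q + ((t - 2 / 3 : ℝ) : ℂ) * (3 * (y - q)) =
          y + (((S - s₂) - (t - 2 / 3) * (3 * (S - s₂)) : ℝ) : ℂ) * e := by
        rw [hq]; push_cast; ring
      have h3 : ‖3 * (y - q)‖ = 3 * (S - s₂) := by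
        have h4 : 3 * (y - q) = ((-(3 * (S - s₂)) : ℝ) : ℂ) * e := by rw [hq]; push_cast; ring
        rw [h4, norm_mul, he, Complex.norm_real, Real.norm_eq_abs, abs_neg,
          abs_of_nonneg (by linarith), mul_one]
      rw [exp_U e c t₀ hc, h2, hin, h3, ← hs₂]
      congr 2
      ring
    simp_rw [h1]
    have hd : ∀ t ∈ uIcc (2 / 3:ℝ) 1, HasDerivAt
        (fun t => -F c t₀ (S - (t - 2 / 3) * (3 * (S - s₂))))
        (w c t₀ (S - (t - 2 / 3) * (3 * (S - s₂))) * (3 * (S - s₂))) t := by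
      intro t _
      have h5 : HasDerivAt (fun t : ℝ => S - (t - 2 / 3) * (3 * (S - s₂))) (-(3 * (S - s₂))) t := by
        simpa using (((hasDerivAt_id t).sub_const (2 / 3)).mul_const (3 * (S - s₂))).const_sub S
      refine ((hasDerivAt_F c t₀ _).comp t h5).neg.congr_deriv ?_
      ring
    rw [intervalIntegral.integral_eq_sub_of_hasDerivAt hd
      (Continuous.intervalIntegrable (by fun_prop) _ _)]
    have h6 : S - (1 - 2 / 3) * (3 * (S - s₂)) = s₂ := by ring
    have h7 : S - (2 / 3 - 2 / 3) * (3 * (S - s₂)) = S := by ring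
    rw [h6, h7]
    ring
  rw [a1, a2, a3]

/-- if the sum of the two primitives is at least `π`, the way to infinity in the direction `e` is
short -/
theorem dist_le (e : ℂ) (he : ‖e‖ = 1) (c t₀ : ℝ) (hc : 0 < c) (x y : ℂ)
    (h : Real.pi ≤ F c t₀ (inner ℝ x e) + F c t₀ (inner ℝ y e)) :
    gdist (U e c t₀) x y ≤ ENNReal.ofReal Real.pi := by
  set K : ℝ := ‖(y - x) + ((inner ℝ x e - inner ℝ y e : ℝ) : ℂ) * e‖ with hK
  have hlim : Tendsto (fun S => ENNReal.ofReal (Real.pi + w c t₀ S * K)) atTop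
      (𝓝 (ENNReal.ofReal Real.pi)) := by
    apply ENNReal.tendsto_ofReal
    have h1 := ((w_tendsto c t₀ hc).mul_const K).const_add Real.pi
    simpa using h1
  refine ge_of_tendsto hlim ?_
  filter_upwards [eventually_ge_atTop (inner ℝ x e), eventually_ge_atTop (inner ℝ y e)] with S h1 h2
  have hp : PiecewiseC1 (path x (x + ((S - inner ℝ x e : ℝ) : ℂ) * e)
      (y + ((S - inner ℝ y e : ℝ) : ℂ) * e) y) := path_c1 _ _ _ _
  have hp0 : path x (x + ((S - inner ℝ x e : ℝ) : ℂ) * e)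
      (y + ((S - inner ℝ y e : ℝ) : ℂ) * e) y 0 = x := by
    rw [path_one _ _ _ _ 0 ⟨le_rfl, by norm_num⟩]; simp
  have hp1 : path x (x + ((S - inner ℝ x e : ℝ) : ℂ) * e)
      (y + ((S - inner ℝ y e : ℝ) : ℂ) * e) y 1 = y := by
    rw [path_three _ _ _ _ 1 ⟨by norm_num, le_rfl⟩]; push_cast; ring
  refine (iInf₂_le (path x (x + ((S - inner ℝ x e : ℝ) : ℂ) * e)
      (y + ((S - inner ℝ y e : ℝ) : ℂ) * e) y) ⟨hp, hp0, hp1⟩).trans ?_
  apply ENNReal.ofReal_le_ofReal
  rw [path_length e he c t₀ hc x y S h1 h2]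
  have h3 := F_lt c t₀ S
  rw [← hK]
  linarith

theorem c4 : S_C4 := by
  intro e c t₀ he hc x y
  rcases le_total Real.pi (F c t₀ (inner ℝ x e) + F c t₀ (inner ℝ y e)) with h | h
  · exact dist_le e he c t₀ hc x y h
  · have h1 : U (-e) c (-t₀) = U e c t₀ := by
      funext z
      unfold U
      rw [inner_neg_right]
      have h2 : c * (-inner ℝ z e - -t₀) = -(c * (inner ℝ z e - t₀)) := by ring
      rw [h2, Real.cosh_neg]
    have h2 := dist_le (-e) (by rw [norm_neg, he]) c (-t₀) hc x y (by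
      rw [inner_neg_right, inner_neg_right, F_neg, F_neg]; linarith)
    rw [h1] at h2
    exact h2

end Pool.Agent.Q265.DP
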